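import Mathlib

/-!
# An omega-bounded group without a stationary winning strategy in the game `Ssp`
-/

namespace Pool.Agent.Results.MP_13df43_gt.NoStationary

open Filter Topology Set

/-- Player `P` has a stationary winning strategy in the game `Ssp(X)`: a map `s` from the
non-empty open sets to points with `s U ∈ U` such that for each sequence `U n` of non-empty open
sets the sequence `s (U n)` has a convergent subsequence. -/
def HasStationaryWinningStrategy (X : Type*) [TopologicalSpace X] : Prop :=
  ∃ s : Set X → X, (∀ U : Set X, IsOpen U → U.Nonempty → s U ∈ U) ∧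
    ∀ U : ℕ → Set X, (∀ n, IsOpen (U n) ∧ (U n).Nonempty) →
      ∃ φ : ℕ → ℕ, StrictMono φ ∧ ∃ x, Tendsto (fun n => s (U (φ n))) atTop (𝓝 x)

/-- the Boolean group of all subsets of the real line. -/
abbrev V : Type := ℝ → ZMod 2

/-- The group of all homomorphisms from `V` to `Z/2` depending on countably many coordinates,
with the topology of pointwise convergence on `V`. -/
def G : AddSubgroup (V → ZMod 2) where
  carrier := {g | (∀ u v, g (u + v) = g u + g v) ∧
    ∃ A : Set ℝ, A.Countable ∧ ∀ v, (∀ a ∈ A, v a = 0) → g v = 0}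
  zero_mem' := ⟨fun _ _ => by simp, ∅, countable_empty, fun _ _ => rfl⟩
  add_mem' := by
    rintro g h ⟨hg, A, hA, hgA⟩ ⟨hh, B, hB, hhB⟩
    refine ⟨fun u v => ?_, A ∪ B, hA.union hB, fun v hv => ?_⟩
    · change g (u + v) + h (u + v) = (g u + h u) + (g v + h v)
      rw [hg, hh]; abel
    · change g v + h v = 0
      rw [hgA v fun a ha => hv a (Or.inl ha), hhB v fun a ha => hv a (Or.inr ha), add_zero]
  neg_mem' := by
    rintro g ⟨hg, A, hA, hgA⟩
    refine ⟨fun u v => ?_, A, hA, fun v hv => ?_⟩
    · change -g (u + v) = -g u + -g v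
      rw [hg]; abel
    · change -g v = 0
      rw [hgA v hv, neg_zero]

/-- Countable subsets of `G` have compact closure. -/
theorem compact_closure (S : Set G) (hS : S.Countable) : IsCompact (closure S) := by
  choose A hA hgA using fun g : G => g.2.2
  set B : Set ℝ := ⋃ g ∈ S, A g with hB
  have hBc : B.Countable := hS.biUnion fun g _ => hA g
  let K : Set (V → ZMod 2) := {g | (∀ u v, g (u + v) = g u + g v) ∧
    ∀ v, (∀ a ∈ B, v a = 0) → g v = 0}
  have hKc : IsClosed K := by
    have h1 : IsClosed {g : V → ZMod 2 | ∀ u v, g (u + v) = g u + g v} := by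
      simp only [ofPred_forall]
      refine isClosed_iInter fun u => isClosed_iInter fun v => ?_
      exact isClosed_eq (continuous_apply _) ((continuous_apply u).add (continuous_apply v))
    have h2 : IsClosed {g : V → ZMod 2 | ∀ v, (∀ a ∈ B, v a = 0) → g v = 0} := by
      simp only [ofPred_forall]
      refine isClosed_iInter fun v => isClosed_iInter fun _ => ?_
      exact isClosed_eq (continuous_apply _) continuous_const
    exact h1.inter h2
  have hKG : K ⊆ (G : Set (V → ZMod 2)) := fun g hg => ⟨hg.1, B, hBc, hg.2⟩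
  have hKcomp : IsCompact (Subtype.val ⁻¹' K : Set G) := by
    rw [Subtype.isCompact_iff, image_preimage_eq_inter_range, Subtype.range_coe]
    have : K ∩ (G : Set (V → ZMod 2)) = K := inter_eq_left.2 hKG
    change IsCompact (K ∩ (G : Set (V → ZMod 2)))
    rw [this]
    exact hKc.isCompact
  refine hKcomp.of_isClosed_subset isClosed_closure (closure_minimal ?_
    (hKc.preimage continuous_subtype_val))
  intro g hg
  refine ⟨g.2.1, fun v hv => hgA g v fun a ha => hv a ?_⟩
  exact mem_iUnion₂.2 ⟨g, hg, ha⟩

/-- Triangular systems: any prescribed values are realised. -/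
theorem exists_realise (p : ℕ → ℝ) (hp : Function.Injective p) (g : ℕ → V → ZMod 2)
    (hadd : ∀ k u v, g k (u + v) = g k u + g k v) (A : ℕ → Set ℝ)
    (hA : ∀ k v, (∀ a ∈ A k, v a = 0) → g k v = 0) (hpA : ∀ k m, k < m → p m ∉ A k)
    (h1 : ∀ k, g k (Pi.single (p k) 1) = 1) (ε : ℕ → ZMod 2) :
    ∃ v, ∀ k, g k v = ε k := by
  classical
  have hzero : ∀ k, g k 0 = 0 := fun k => hA k 0 fun _ _ => rfl
  have hsmul : ∀ k (c : ZMod 2) v, g k (c • v) = c * g k v := by
    intro k c v
    have hc : c = 0 ∨ c = 1 := by
      have : ∀ c : ZMod 2, c = 0 ∨ c = 1 := by decide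
      exact this c
    rcases hc with rfl | rfl
    · rw [zero_smul, hzero, zero_mul]
    · rw [one_smul, one_mul]
  let w : ℕ → V := fun k => Nat.rec 0 (fun k w => w + (ε k - g k w) • Pi.single (p k) 1) k
  have hw : ∀ k, w (k + 1) = w k + (ε k - g k (w k)) • Pi.single (p k) 1 := fun _ => rfl
  have hgw : ∀ k, g k (w (k + 1)) = ε k := by
    intro k
    rw [hw, hadd, hsmul, h1]
    ring
  let J : ℝ → ℕ := fun x => if h : ∃ j, p j = x then h.choose + 1 else 0
  have hJ : ∀ x n, J x ≤ n → x ≠ p n := by
    intro x n hn hx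
    have hex : ∃ j, p j = x := ⟨n, hx.symm⟩
    have h2 : J x = hex.choose + 1 := dif_pos hex
    have h3 : hex.choose = n := hp (hex.choose_spec.trans hx)
    omega
  let v : V := fun x => w (J x) x
  have hv : ∀ x n, J x ≤ n → w n x = v x := by
    intro x n hn
    induction n, hn using Nat.le_induction with
    | base => rfl
    | succ n hn ih =>
      rw [hw, Pi.add_apply, Pi.smul_apply, Pi.single_eq_of_ne (hJ x n hn), smul_zero, add_zero, ih]
  refine ⟨v, fun k => ?_⟩
  have hagree : ∀ a ∈ A k, (v - w (k + 1)) a = 0 := by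
    intro a ha
    have hJk : J a ≤ k + 1 := by
      by_cases hex : ∃ j, p j = a
      · have h2 : J a = hex.choose + 1 := dif_pos hex
        have h3 : ¬ k < hex.choose := fun hlt => hpA k _ hlt (by
          rw [hex.choose_spec]; exact ha)
        omega
      · have h2 : J a = 0 := dif_neg hex
        omega
    rw [Pi.sub_apply, hv a _ hJk, sub_self]
  have h2 := hA k _ hagree
  have h3 : v = (v - w (k + 1)) + w (k + 1) := by abel
  rw [h3, hadd, h2, zero_add, hgw]

theorem no_strategy : ¬ HasStationaryWinningStrategy G := by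
  classical
  rintro ⟨s, hs, hwin⟩
  choose A hA hgA using fun g : G => g.2.2
  let U : ℝ → Set G := fun x => {g | (g : V → ZMod 2) (Pi.single x 1) = 1}
  have hUo : ∀ x, IsOpen (U x) := by
    intro x
    have hc : Continuous fun g : G => (g : V → ZMod 2) (Pi.single x 1) :=
      (continuous_apply _).comp continuous_subtype_val
    exact (isOpen_discrete ({1} : Set (ZMod 2))).preimage hc
  have hUne : ∀ x, (U x).Nonempty := by
    intro x
    refine ⟨⟨fun v => v x, ⟨fun _ _ => rfl, {x}, countable_singleton x, fun v hv =>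
      hv x (mem_singleton x)⟩⟩, ?_⟩
    change (Pi.single x 1 : V) x = 1
    rw [Pi.single_eq_same]
  have hout : ∀ B : {B : Set ℝ // B.Countable}, ∃ x, x ∉ B.1 := by
    rintro ⟨B, hB⟩
    by_contra hcon
    push Not at hcon
    exact Cardinal.not_countable_real (hB.mono fun x _ => hcon x)
  choose pt hpt using hout
  let nxt : {B : Set ℝ // B.Countable} → {B : Set ℝ // B.Countable} := fun B =>
    ⟨insert (pt B) (B.1 ∪ A (s (U (pt B)))), (B.2.union (hA _)).insert _⟩
  let B : ℕ → {B : Set ℝ // B.Countable} := fun n => Nat.rec ⟨∅, countable_empty⟩ (fun _ B => nxt B) n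
  have hB : ∀ n, B (n + 1) = nxt (B n) := fun _ => rfl
  have hBmono : Monotone fun n => (B n).1 := monotone_nat_of_le_succ fun n x hx => by
    rw [hB]
    exact Or.inr (Or.inl hx)
  obtain ⟨φ, hφ, x, hx⟩ := hwin (fun n => U (pt (B n))) fun n => ⟨hUo _, hUne _⟩
  have hsub : ∀ n, A (s (U (pt (B n)))) ⊆ (B (n + 1)).1 := fun n y hy => by
    rw [hB]
    exact Or.inr (Or.inr hy)
  have hptB : ∀ n, pt (B n) ∈ (B (n + 1)).1 := fun n => by
    rw [hB]
    exact Or.inl rfl
  have hlt : ∀ n m, n < m → pt (B m) ≠ pt (B n) := by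
    intro n m hnm heq
    exact hpt (B m) (heq ▸ hBmono (show n + 1 ≤ m from hnm) (hptB n))
  obtain ⟨v, hv⟩ := exists_realise (fun k => pt (B (φ k)))
    (by
      intro i j hij
      rcases lt_trichotomy i j with h | h | h
      · exact absurd hij.symm (hlt _ _ (hφ h))
      · exact h
      · exact absurd hij (hlt _ _ (hφ h)))
    (fun k => (s (U (pt (B (φ k)))) : V → ZMod 2))
    (fun k => (s (U (pt (B (φ k))))).2.1)
    (fun k => A (s (U (pt (B (φ k))))))
    (fun k => hgA _)
    (fun k m hkm hmem => hpt (B (φ m)) (hBmono (show φ k + 1 ≤ φ m from hφ hkm) (hsub _ hmem)))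
    (fun k => hs _ (hUo _) (hUne _))
    (fun k => (k : ZMod 2))
  have hconv : Tendsto (fun k : ℕ => (k : ZMod 2)) atTop (𝓝 ((x : V → ZMod 2) v)) := by
    have hc : Continuous fun g : G => (g : V → ZMod 2) v :=
      (continuous_apply _).comp continuous_subtype_val
    have := (hc.tendsto x).comp hx
    refine this.congr fun k => ?_
    exact hv k
  rw [nhds_discrete, tendsto_pure] at hconv
  obtain ⟨N, hN⟩ := eventually_atTop.1 hconv
  have h1 := hN N le_rfl
  have h2 := hN (N + 1) (by omega)
  rw [← h1] at h2
  push_cast at h2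
  have h3 : (1 : ZMod 2) = 0 := by
    have := congrArg (fun z => z - (N : ZMod 2)) h2
    simpa using this
  exact absurd h3 (by decide)

/-- **Q1 is false**: a Hausdorff topological group in which the closure of every countable
subgroup is compact, but in which `P` has no stationary winning strategy in `Ssp`. -/
theorem result : ∃ (G : Type) (_ : AddCommGroup G) (_ : TopologicalSpace G)
    (_ : IsTopologicalAddGroup G) (_ : T2Space G),
    (∀ H : AddSubgroup G, (H : Set G).Countable → IsCompact (closure (H : Set G))) ∧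
      ¬ HasStationaryWinningStrategy G :=
  ⟨G, inferInstance, inferInstance, inferInstance, inferInstance,
    fun H hH => compact_closure _ hH, no_strategy⟩

end Pool.Agent.Results.MP_13df43_gt.NoStationary
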